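import Pool.Agent.Helper43.GD.St

/-! # Project GD, module SB -/

set_option autoImplicit false

namespace Pool.Agent.Helper29.GD

open Pool.Agent.Helper43.GD

theorem hSB (hP1 : StP1) (hTX : StTX) : StSB := by
  intro L A _ _ Q M x hR hx ι ε hι hι2 hε
  have hg := hR.gold
  -- `y = ι x`
  have hy : ι * x ∈ Q.U := Q.U.mul_mem hι hx
  have hprod : (1 - (ι : L) * x) * (1 + (ι : L) * x) = x := by
    linear_combination (-(x : L) ^ 2) * hι2 - hg
  have hunit : IsUnit (1 - (ι : L) * x) := by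
    have : IsUnit ((1 - (ι : L) * x) * (1 + (ι : L) * x)) := by
      rw [hprod]
      exact x.isUnit
    exact isUnit_of_mul_isUnit_left this
  obtain ⟨z, hz⟩ := hunit
  have hzz : (z : L) * ((z⁻¹ : Lˣ) : L) = 1 := z.mul_inv
  have hS : Q.S z⁻¹ (ι * x) := by
    apply hP1 L A Q z⁻¹ (ι * x) (-1) hy Q.neg
    push_cast
    rw [hz] at hzz
    linear_combination hzz
  have hS2 : Q.S z⁻¹ (x ^ 2) := by
    have h := Q.S_mul hS hS
    have e : ι * x * (ι * x) = x ^ 2 := by
      ext
      push_cast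
      linear_combination (x : L) ^ 2 * hι2
    rwa [e] at h
  have hzU : z ∈ Q.U := by
    have := Q.U.inv_mem (hTX L A Q M x hR hx z⁻¹ (Or.inr hS2))
    rwa [inv_inv] at this
  refine ⟨x * z, Q.U.mul_mem hx hzU, ?_⟩
  have h2 := hR.two
  have e : (2 : L) * ((x * z : Lˣ) : L) = 2 * (ε * (x : L) ^ 3 + (1 - ε)) := by
    push_cast
    rw [hz]
    linear_combination (1 - (x : L) ^ 3) * hε + (1 - (x : L) - ι * x - ι) * hg
  exact h2.mul_left_cancel e

end Pool.Agent.Helper29.GD
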